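import Pool.Agent.H19.KL.Stmts2

/-!
# Module CR2: the Cramér-Rao type inequality for the body, all `q`
(a modification of `Pool.Agent.H73.Lp.CRL`)
-/

set_option autoImplicit false

open MeasureTheory Set Filter Topology
open scoped ContDiff

namespace Pool.Agent.H19.KL

open Pool.Agent.H84 Pool.Agent.H84.Sym Pool.Agent.H84.Sym.P2x Pool.Agent.H84.Sym.C29
open Pool.Agent.H73.Lp

section

variable {E : Type*} [NormedAddCommGroup E] [InnerProductSpace ℝ E]
    [FiniteDimensional ℝ E] [MeasurableSpace E] [BorelSpace E] {p q : ℝ}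
variable {ι : Type*} [Fintype ι] {v : ι → E} {φ : ι → ℝ → ℝ}

private theorem cr2_ae_ne {v : E} (hv : v ≠ 0) :
    ∀ᵐ x ∂(volume : Measure E), (inner ℝ v x : ℝ) ≠ 0 := by
  have h1 : (LinearMap.ker (innerₛₗ ℝ v)) ≠ ⊤ := by
    intro h
    have h2 : v ∈ LinearMap.ker (innerₛₗ ℝ v) := by rw [h]; trivial
    have h3 : (inner ℝ v v : ℝ) = 0 := h2
    exact hv (inner_self_eq_zero.1 h3)
  have h2 := Measure.addHaar_submodule (volume : Measure E) _ h1
  rw [ae_iff]
  convert h2 using 2
  ext x
  simp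

private theorem cr2_ball_CB {R0 : ℝ} (hR0 : 0 < R0) : CB (Metric.closedBall (0:E) R0) R0 := by
  refine ⟨convex_closedBall _ _, measurableSet_closedBall, le_rfl, ?_⟩
  exact (Metric.measure_closedBall_pos volume _ hR0).ne'

/-- Integrability of the dominating functions on a ball. -/
private theorem cr2_pow_int {R0 : ℝ} (hR0 : 0 < R0) {v : E} (hv : v ≠ 0) {e R : ℝ} (he1 : -1 < e)
    (he2 : e < 1) (hR : 0 < R) :
    IntegrableOn (fun x => (|inner ℝ v x| / R) ^ e) (Metric.closedBall (0:E) R0) := by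
  have hrew : (fun x : E => (|inner ℝ v x| / R) ^ e) =
      fun x => |inner ℝ v x| ^ e * (R ^ e)⁻¹ := by
    funext x
    rw [Real.div_rpow (abs_nonneg _) hR.le, div_eq_mul_inv]
  rw [hrew]
  rcases le_total 0 e with he | he
  · exact (moment_pos (cr2_ball_CB hR0) hv he he2).1.mul_const _
  · have := (moment_neg (cr2_ball_CB hR0) (fun x hx => by simpa using hx) hv (a := -e) (by linarith)
      (by linarith)).1
    rw [neg_neg] at this
    exact this.mul_const _

private theorem cr2_int_KK (hφ : ∀ j, Orl p q (φ j)) (F : ℝ → E → ℝ) (hF : ∀ x, F 0 x = 0) :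
    ∫ x, F (max (1 - Ph v φ x) 0) x = ∫ x in KK v φ, F (1 - Ph v φ x) x := by
  rw [← integral_indicator (KK_isOpen hφ).measurableSet]
  congr 1
  ext x
  by_cases hx : x ∈ KK v φ
  · rw [indicator_of_mem hx]
    have : Ph v φ x < 1 := hx
    rw [max_eq_left (by linarith)]
  · rw [indicator_of_notMem hx]
    have : ¬ Ph v φ x < 1 := hx
    rw [max_eq_right (by linarith), hF]

private theorem cr2_psi_mul_le {g : ℝ → ℝ} (hg : Continuous g) (hg0 : ∀ s, 0 ≤ g s) {t : ℝ}
    (ht : 0 ≤ t) (ht1 : t ≤ 1) (s : ℝ) : psi g (t * s) ≤ t * psi g s := by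
  have hc : ConvexOn ℝ univ (psi g) := by
    obtain ⟨h1, h2, h3⟩ := psi_spec hg
    apply convexOn_univ_of_deriv2_nonneg
    · exact h1.differentiable (by norm_num)
    · have e2 : (2 : WithTop ℕ∞) = 1 + 1 := by norm_num
      rw [e2, contDiff_succ_iff_deriv] at h1
      exact h1.2.2.differentiable (by norm_num)
    · intro x
      simp only [Function.iterate_succ, Function.iterate_zero, Function.comp_apply, id]
      rw [h3]
      exact hg0 x
  have := hc.2 (mem_univ s) (mem_univ 0) ht (by linarith : 0 ≤ 1 - t) (by ring)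
  simpa [psi_zero] using this

end

theorem cr2_thm (E : Type) [NormedAddCommGroup E] [InnerProductSpace ℝ E]
    [FiniteDimensional ℝ E] [MeasurableSpace E] [BorelSpace E] (hKPI : KPIStmt E)
    (hPGC : PGCStmt) : CR2Stmt E := by
  intro ι _ v φ p q hφ hp hp2 hq2 hv hv0 w
  have hpq : p ≤ q := hp2.trans hq2
  classical
  obtain ⟨R0, hR0, hlarge⟩ := Ph_large hφ hp hpq hv
  obtain ⟨RK, -, hCB⟩ := KK_CB hφ hp hpq hv
  set R : ℝ := (∑ j, ‖v j‖) * R0 + 1 with hRdef
  have hR : 0 < R := by
    have : 0 ≤ (∑ j, ‖v j‖) * R0 :=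
      mul_nonneg (Finset.sum_nonneg fun j _ => norm_nonneg _) hR0.le
    linarith
  have hsR : ∀ j (x : E), ‖x‖ ≤ R0 → |inner ℝ (v j) x| ≤ R := by
    intro j x hx
    have h1 : |(inner ℝ (v j) x : ℝ)| ≤ ‖v j‖ * ‖x‖ := abs_real_inner_le_norm _ _
    have h2 : ‖v j‖ * ‖x‖ ≤ (∑ j, ‖v j‖) * R0 := by
      apply mul_le_mul _ hx (norm_nonneg _) (Finset.sum_nonneg fun j _ => norm_nonneg _)
      exact Finset.single_le_sum (f := fun j => ‖v j‖) (fun i _ => norm_nonneg _)
        (Finset.mem_univ j)
    linarith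
  set εk : ℕ → ℝ := fun k => R / ((k:ℝ) + 2) with hεk
  have hεpos : ∀ k, 0 < εk k := fun k => by
    simp only [hεk]
    positivity
  have hεR : ∀ k, εk k < R := fun k => by
    simp only [hεk]
    rw [div_lt_iff₀ (by positivity)]
    have : (0:ℝ) ≤ k := Nat.cast_nonneg k
    nlinarith
  have hεt : Tendsto εk atTop (𝓝 0) := by
    have h1 : Tendsto (fun k : ℕ => (k:ℝ) + 2) atTop atTop :=
      tendsto_atTop_add_const_right _ _ tendsto_natCast_atTop_atTop
    exact h1.const_div_atTop R
  set g : ℕ → ι → ℝ → ℝ := fun k j => gg (φ j) (εk k) R with hg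
  have hgc : ∀ k j, Continuous (g k j) := fun k j => gg_continuous (hφ j) (hεpos k) (hεR k)
  have hg0 : ∀ k j s, 0 ≤ g k j s := fun k j s => by
    obtain ⟨m, M, hm, hmM⟩ := gg_bounds (hφ j) hp (hεpos k) (hεR k)
    exact hm.le.trans (hmM s).1
  have hpsi0 : ∀ k j s, 0 ≤ psi (g k j) s := fun k j s => by
    have := psi_lower (hgc k j) (m := 0) (hg0 k j) s
    simpa using this
  set Φk : ℕ → E → ℝ := fun k => Ph v (fun j => psi (g k j)) with hΦk
  have hΦk0 : ∀ k x, 0 ≤ Φk k x := fun k x => Finset.sum_nonneg fun j _ => hpsi0 k j _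
  have hΦkc : ∀ k, Continuous (Φk k) := fun k => (Ph_psi (v := v) (hgc k)).1.continuous
  have hΦc : Continuous (Ph v φ) := Ph_continuous hφ
  set η : ℕ → ℝ := fun k => ∑ j, (q + 1) * R * deriv (φ j) (εk k) with hη
  have hηt : Tendsto η atTop (𝓝 0) := by
    have h1 : ∀ j, Tendsto (fun k => (q + 1) * R * deriv (φ j) (εk k)) atTop (𝓝 0) := by
      intro j
      have h2 : Continuous (deriv (φ j)) := (hφ j).c1.continuous_deriv (by norm_num)
      have h3 := (h2.tendsto 0).comp hεt
      rw [(hφ j).deriv_zero] at h3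
      have h4 := h3.const_mul ((q + 1) * R)
      rw [mul_zero] at h4
      exact h4
    have h2 := tendsto_finsetSum (Finset.univ : Finset ι) (fun j _ => h1 j)
    simpa using h2
  have hclose : ∀ k (x : E), ‖x‖ ≤ R0 → |Φk k x - Ph v φ x| ≤ η k := by
    intro k x hx
    have h1 : Φk k x - Ph v φ x =
        ∑ j, (psi (g k j) (inner ℝ (v j) x) - φ j (inner ℝ (v j) x)) := by
      rw [Finset.sum_sub_distrib]
      rfl
    rw [h1]
    refine (Finset.abs_sum_le_sum_abs _ _).trans (Finset.sum_le_sum fun j _ => ?_)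
    exact hPGC p q (φ j) (εk k) R _ (hφ j) hp hpq (hεpos k) (hεR k) (hsR j x hx)
  -- the regularised bodies stay in the ball
  have hout : ∀ᶠ k in atTop, ∀ x : E, R0 ≤ ‖x‖ → 1 ≤ Φk k x := by
    filter_upwards [hηt.eventually (gt_mem_nhds (show (0:ℝ) < 1 by norm_num))] with k hk x hx
    have hx0 : 0 < ‖x‖ := hR0.trans_le hx
    set t : ℝ := R0 / ‖x‖ with ht
    have ht0 : 0 < t := by positivity
    have ht1 : t ≤ 1 := (div_le_one hx0).2 hx
    have hn : ‖t • x‖ = R0 := by
      rw [norm_smul, Real.norm_eq_abs, abs_of_pos ht0, ht]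
      field_simp
    have h1 : Φk k (t • x) ≤ t * Φk k x := by
      simp only [hΦk, Ph]
      rw [Finset.mul_sum]
      refine Finset.sum_le_sum fun j _ => ?_
      rw [inner_smul_right]
      exact cr2_psi_mul_le (hgc k j) (hg0 k j) ht0.le ht1 _
    have h2 := hclose k (t • x) hn.le
    have h3 := hlarge (t • x) hn.ge
    have h4 : 1 ≤ Φk k (t • x) := by
      have := (abs_le.1 h2).1
      linarith
    have h5 : t * Φk k x ≤ 1 * Φk k x := mul_le_mul_of_nonneg_right ht1 (hΦk0 k x)
    linarith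
  -- pointwise limits
  have hlim : ∀ x, Tendsto (fun k => max (1 - Φk k x) 0) atTop (𝓝 (max (1 - Ph v φ x) 0)) := by
    intro x
    rcases le_total ‖x‖ R0 with hx | hx
    · have h1 : Tendsto (fun k => Φk k x) atTop (𝓝 (Ph v φ x)) := by
        rw [tendsto_iff_norm_sub_tendsto_zero]
        exact squeeze_zero (fun _ => norm_nonneg _) (fun k => hclose k x hx) hηt
      exact (h1.const_sub 1).max tendsto_const_nhds
    · have h1 : max (1 - Ph v φ x) 0 = 0 := max_eq_right (by linarith [hlarge x hx])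
      rw [h1]
      apply tendsto_const_nhds.congr'
      filter_upwards [hout] with k hk
      rw [max_eq_right (by linarith [hk x hx])]
  have hP1 : ∀ k x, max (1 - Φk k x) 0 ≤ 1 := fun k x => max_le (by linarith [hΦk0 k x]) zero_le_one
  have hP0 : ∀ k x, 0 ≤ max (1 - Φk k x) 0 := fun k x => le_max_right _ _
  have hPind : ∀ᶠ k in atTop, ∀ x, x ∉ Metric.closedBall (0:E) R0 → max (1 - Φk k x) 0 = 0 := by
    filter_upwards [hout] with k hk x hx
    have : R0 < ‖x‖ := by simpa using hx
    exact max_eq_right (by linarith [hk x this.le])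
  -- general dominated convergence
  have hdom : ∀ (F : ℕ → E → ℝ) (G : E → ℝ) (b : E → ℝ),
      (∀ k, AEStronglyMeasurable (F k) volume) →
      IntegrableOn b (Metric.closedBall (0:E) R0) →
      (∀ᶠ k in atTop, ∀ x, x ∉ Metric.closedBall (0:E) R0 → F k x = 0) →
      (∀ᶠ k in atTop, ∀ᵐ x, x ∈ Metric.closedBall (0:E) R0 → ‖F k x‖ ≤ b x) →
      (∀ᵐ x, Tendsto (fun k => F k x) atTop (𝓝 (G x))) →
      Tendsto (fun k => ∫ x, F k x) atTop (𝓝 (∫ x, G x)) := by
    intro F G b hF hb hz hle ht
    apply tendsto_integral_filter_of_dominated_convergence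
      (indicator (Metric.closedBall (0:E) R0) b) (Eventually.of_forall hF) _
      ((integrable_indicator_iff measurableSet_closedBall).2 hb) ht
    filter_upwards [hz, hle] with k hk1 hk2
    filter_upwards [hk2] with x hx
    by_cases hxb : x ∈ Metric.closedBall (0:E) R0
    · rw [indicator_of_mem hxb]
      exact hx hxb
    · rw [indicator_of_notMem hxb, hk1 x hxb, norm_zero]
  have hfin : ∀ c : ℝ, IntegrableOn (fun _ : E => c) (Metric.closedBall (0:E) R0) := fun c =>
    integrableOn_const (isCompact_closedBall (0:E) R0).measure_lt_top.ne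
  have hPc : ∀ k, Continuous (fun x => max (1 - Φk k x) 0) := fun k =>
    (continuous_const.sub (hΦkc k)).max continuous_const
  have hA : Tendsto (fun k => ∫ x, (max (1 - Φk k x) 0) ^ 2) atTop
      (𝓝 (∫ x, (max (1 - Ph v φ x) 0) ^ 2)) := by
    apply hdom (fun k x => (max (1 - Φk k x) 0) ^ 2) _ (fun _ => 1)
      (fun k => ((hPc k).pow 2).aestronglyMeasurable) (hfin 1)
    · filter_upwards [hPind] with k hk x hx
      rw [hk x hx]; norm_num
    · refine Eventually.of_forall fun k => Eventually.of_forall fun x _ => ?_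
      rw [Real.norm_eq_abs, abs_of_nonneg (by positivity)]
      exact pow_le_one₀ (hP0 k x) (hP1 k x)
    · exact Eventually.of_forall fun x => (hlim x).pow 2
  have hB : Tendsto (fun k => ∫ x, max (1 - Φk k x) 0 * (inner ℝ w x) ^ 2) atTop
      (𝓝 (∫ x, max (1 - Ph v φ x) 0 * (inner ℝ w x) ^ 2)) := by
    have hic : Continuous fun x : E => (inner ℝ w x : ℝ) ^ 2 :=
      (continuous_const.inner continuous_id).pow 2
    apply hdom (fun k x => max (1 - Φk k x) 0 * (inner ℝ w x) ^ 2) _ (fun x => (inner ℝ w x) ^ 2)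
      (fun k => ((hPc k).mul hic).aestronglyMeasurable)
      (hic.continuousOn.integrableOn_compact (isCompact_closedBall _ _))
    · filter_upwards [hPind] with k hk x hx
      rw [hk x hx]; ring
    · refine Eventually.of_forall fun k => Eventually.of_forall fun x _ => ?_
      rw [Real.norm_eq_abs, abs_of_nonneg (mul_nonneg (hP0 k x) (sq_nonneg _))]
      exact mul_le_of_le_one_left (sq_nonneg _) (hP1 k x)
    · exact Eventually.of_forall fun x => (hlim x).mul_const _
  have hne : ∀ᵐ x ∂(volume : Measure E), ∀ j, (inner ℝ (v j) x : ℝ) ≠ 0 :=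
    ae_all_iff.2 fun j => cr2_ae_ne (hv0 j)
  have hCj : ∀ j, Tendsto (fun k => ∫ x, (max (1 - Φk k x) 0) ^ 2 *
      (g k j (inner ℝ (v j) x) * (inner ℝ (v j) w) ^ 2)) atTop
      (𝓝 (∫ x, (max (1 - Ph v φ x) 0) ^ 2 *
        (deriv (deriv (φ j)) |inner ℝ (v j) x| * (inner ℝ (v j) w) ^ 2))) := by
    intro j
    have hic : Continuous fun x : E => (inner ℝ (v j) x : ℝ) := continuous_const.inner continuous_id
    apply hdom (fun k x => (max (1 - Φk k x) 0) ^ 2 *
      (g k j (inner ℝ (v j) x) * (inner ℝ (v j) w) ^ 2)) _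
      (fun x => ((q - 1) * kap (φ j) R * ((|inner ℝ (v j) x| / R) ^ (p - 2) + 1)) *
        (inner ℝ (v j) w) ^ 2)
      (fun k => (((hPc k).pow 2).mul (((hgc k j).comp hic).mul
        continuous_const)).aestronglyMeasurable)
    · apply Integrable.mul_const
      apply Integrable.const_mul
      exact (cr2_pow_int hR0 (hv0 j) (by linarith) (by linarith) hR).add (hfin 1)
    · filter_upwards [hPind] with k hk x hx
      rw [hk x hx]; ring
    · refine Eventually.of_forall fun k => ?_
      filter_upwards [hne] with x hx hxb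
      have hxR : |(inner ℝ (v j) x : ℝ)| ≤ R := hsR j x (by simpa using hxb)
      have h1 : 0 ≤ g k j (inner ℝ (v j) x) * (inner ℝ (v j) w) ^ 2 :=
        mul_nonneg (hg0 k j _) (sq_nonneg _)
      rw [Real.norm_eq_abs, abs_of_nonneg (mul_nonneg (by positivity) h1)]
      calc (max (1 - Φk k x) 0) ^ 2 * (g k j (inner ℝ (v j) x) * (inner ℝ (v j) w) ^ 2)
          ≤ 1 * (g k j (inner ℝ (v j) x) * (inner ℝ (v j) w) ^ 2) :=
            mul_le_mul_of_nonneg_right (pow_le_one₀ (hP0 k x) (hP1 k x)) h1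
        _ ≤ _ := by
            rw [one_mul]
            apply mul_le_mul_of_nonneg_right _ (sq_nonneg _)
            exact gg_up (hφ j) hp hpq (hεpos k) (hεR k) (hx j) hxR
    · filter_upwards [hne] with x hx
      have hs0 : 0 < |(inner ℝ (v j) x : ℝ)| := abs_pos.2 (hx j)
      rcases le_total ‖x‖ R0 with hxb | hxb
      · have hev : ∀ᶠ k in atTop, g k j (inner ℝ (v j) x) =
            deriv (deriv (φ j)) |inner ℝ (v j) x| := by
          filter_upwards [hεt.eventually (gt_mem_nhds hs0)] with k hk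
          exact gg_eq hk.le (hsR j x hxb)
        have h1 : Tendsto (fun k => (max (1 - Φk k x) 0) ^ 2 *
            (deriv (deriv (φ j)) |inner ℝ (v j) x| * (inner ℝ (v j) w) ^ 2)) atTop
            (𝓝 ((max (1 - Ph v φ x) 0) ^ 2 *
              (deriv (deriv (φ j)) |inner ℝ (v j) x| * (inner ℝ (v j) w) ^ 2))) :=
          ((hlim x).pow 2).mul_const _
        apply h1.congr'
        filter_upwards [hev] with k hk
        rw [hk]
      · have h1 : max (1 - Ph v φ x) 0 = 0 := max_eq_right (by linarith [hlarge x hxb])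
        rw [h1]
        simp only [ne_eq, OfNat.ofNat_ne_zero, not_false_eq_true, zero_pow, zero_mul]
        apply tendsto_const_nhds.congr'
        filter_upwards [hout] with k hk
        rw [max_eq_right (by linarith [hk x hxb])]
        simp
  -- the inequality for the regularised functions
  have hineq : ∀ᶠ k in atTop, (‖w‖ ^ 2 * ∫ x, (max (1 - Φk k x) 0) ^ 2) ^ 2 ≤
      2 * (∫ x, max (1 - Φk k x) 0 * (inner ℝ w x) ^ 2) *
        ∑ j, ∫ x, (max (1 - Φk k x) 0) ^ 2 *
          (g k j (inner ℝ (v j) x) * (inner ℝ (v j) w) ^ 2) := by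
    filter_upwards [hout, hPind] with k hk hk2
    obtain ⟨hc2, -, hDD⟩ := Ph_psi (v := v) (hgc k)
    have h1 := cri hc2 hk w
    have h2 : ∫ x, (max (1 - Ph v (fun j => psi (g k j)) x) 0) ^ 2 *
        Sym.D w (Sym.D w (Ph v (fun j => psi (g k j)))) x =
        ∑ j, ∫ x, (max (1 - Φk k x) 0) ^ 2 *
          (g k j (inner ℝ (v j) x) * (inner ℝ (v j) w) ^ 2) := by
      rw [← integral_finsetSum]
      · congr 1
        ext x
        rw [hDD, Finset.mul_sum]
      · intro j _
        have hic : Continuous fun x : E => (inner ℝ (v j) x : ℝ) :=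
          continuous_const.inner continuous_id
        have hcont : Continuous fun x => (max (1 - Φk k x) 0) ^ 2 *
            (g k j (inner ℝ (v j) x) * (inner ℝ (v j) w) ^ 2) :=
          ((hPc k).pow 2).mul (((hgc k j).comp hic).mul continuous_const)
        apply hcont.integrable_of_hasCompactSupport
        apply HasCompactSupport.intro (isCompact_closedBall (0:E) R0)
        intro x hx
        rw [hk2 x hx]
        ring
    rw [h2] at h1
    exact h1
  have hlimit := le_of_tendsto_of_tendsto (((hA.const_mul (‖w‖ ^ 2))).pow 2)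
    ((hB.const_mul 2).mul (tendsto_finsetSum (Finset.univ : Finset ι) (fun j _ => hCj j))) hineq
  -- translation to the body
  have eA : ∫ x, (max (1 - Ph v φ x) 0) ^ 2 = ∫ x in KK v φ, (1 - Ph v φ x) ^ 2 :=
    cr2_int_KK hφ (fun y _ => y ^ 2) (fun x => by norm_num)
  have eB : ∫ x, max (1 - Ph v φ x) 0 * (inner ℝ w x) ^ 2 =
      ∫ x in KK v φ, (1 - Ph v φ x) * (inner ℝ w x) ^ 2 :=
    cr2_int_KK hφ (fun y x => y * (inner ℝ w x) ^ 2) (fun x => by ring)
  have eC : ∀ j, ∫ x, (max (1 - Ph v φ x) 0) ^ 2 *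
        (deriv (deriv (φ j)) |inner ℝ (v j) x| * (inner ℝ (v j) w) ^ 2) ≤
      (q - 1) * (inner ℝ (v j) w) ^ 2 *
          ∫ x in KK v φ, (1 - Ph v φ x) ^ 2 * kap (φ j) (inner ℝ (v j) x) := by
    intro j
    rw [cr2_int_KK hφ (fun y x => y ^ 2 *
      (deriv (deriv (φ j)) |inner ℝ (v j) x| * (inner ℝ (v j) w) ^ 2)) (fun x => by ring)]
    rw [← integral_const_mul]
    have hkint := (hKPI _ _ (v j) (φ j) p q hCB (fun x hx => KK_neg hφ hx) (hv0 j) (hφ j) hp hp2
      hq2).1
    have hdd0 : ∀ s : ℝ, 0 < s → 0 ≤ deriv (deriv (φ j)) s := fun s hs => by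
      have h1 := (hφ j).lower s hs
      have h2 : 0 < (p - 1) * deriv (φ j) s := mul_pos (by linarith) ((hφ j).pos s hs)
      exact (pos_of_mul_pos_right (h2.trans_le h1) hs.le).le
    have hkap0 : ∀ s : ℝ, s ≠ 0 → 0 ≤ kap (φ j) s := fun s hs => ((hφ j).kap_pos hs).le
    apply integral_mono_of_nonneg
    · filter_upwards [ae_restrict_of_ae hne] with x hx
      have h1 := hdd0 _ (abs_pos.2 (hx j))
      simp only [Pi.zero_apply]
      positivity
    · apply Integrable.const_mul
      apply Integrable.mono' hkint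
      · apply AEStronglyMeasurable.mul
        · exact ((continuous_const.sub hΦc).pow 2).aestronglyMeasurable
        · exact hkint.aestronglyMeasurable
      · filter_upwards [ae_restrict_of_ae hne, ae_restrict_mem (KK_isOpen hφ).measurableSet]
          with x hx hxK
        have h1 : Ph v φ x < 1 := hxK
        have h2 := Ph_nonneg (v := v) hφ hp x
        have h3 := hkap0 _ (hx j)
        rw [Real.norm_eq_abs, abs_of_nonneg (by positivity)]
        apply mul_le_of_le_one_left h3
        exact pow_le_one₀ (by linarith) (by linarith)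
    · filter_upwards [ae_restrict_of_ae hne] with x hx
      have hs0 : 0 < |(inner ℝ (v j) x : ℝ)| := abs_pos.2 (hx j)
      have h1 : deriv (deriv (φ j)) |inner ℝ (v j) x| ≤ (q - 1) * kap (φ j) (inner ℝ (v j) x) := by
        have h2 := (hφ j).upper _ hs0
        unfold kap
        rw [← mul_div_assoc, le_div_iff₀ hs0]
        linarith
      calc (1 - Ph v φ x) ^ 2 * (deriv (deriv (φ j)) |inner ℝ (v j) x| * (inner ℝ (v j) w) ^ 2)
          ≤ (1 - Ph v φ x) ^ 2 * ((q - 1) * kap (φ j) (inner ℝ (v j) x) *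
            (inner ℝ (v j) w) ^ 2) := by
            gcongr
        _ = _ := by ring
  rw [eA, eB] at hlimit
  refine hlimit.trans ?_
  apply mul_le_mul_of_nonneg_left (Finset.sum_le_sum fun j _ => eC j)
  apply mul_nonneg zero_le_two
  apply setIntegral_nonneg (KK_isOpen hφ).measurableSet
  intro x hx
  have h1 : Ph v φ x < 1 := hx
  exact mul_nonneg (by linarith) (sq_nonneg _)

end Pool.Agent.H19.KL
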