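import Pool.Agent.H19.KL.Stmts2

/-!
# Module CV2: lower bound of the covariance, all `q`
(a modification of `cov_lower` in `Pool.Agent.H73.Lp.ASM`)
-/

set_option autoImplicit false

open MeasureTheory Set
open scoped ContDiff

namespace Pool.Agent.H19.KL

open Pool.Agent.H84 Pool.Agent.H84.Sym Pool.Agent.H84.Sym.P2x Pool.Agent.H84.Sym.C29
open Pool.Agent.H73.Lp

theorem cv2_thm (E : Type) [NormedAddCommGroup E] [InnerProductSpace ℝ E]
    [FiniteDimensional ℝ E] [MeasurableSpace E] [BorelSpace E] (hCR2 : CR2Stmt E)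
    (hKPI : KPIStmt E) : CV2Stmt E := by
  intro ι _ v φ p q hnt hφ hp hp2 hq2 hv hv0 s hcov w
  have hpq : p ≤ q := hp2.trans hq2
  obtain ⟨R, hR0, hK⟩ := KK_CB hφ hp hpq hv
  have hsymm : ∀ x ∈ KK v φ, -x ∈ KK v φ := fun x hx => KK_neg hφ hx
  set d : ℝ := (Module.finrank ℝ E : ℝ) with hd
  have hd1 : 1 ≤ d := by
    rw [hd]
    exact_mod_cast Module.finrank_pos (R := ℝ) (M := E)
  set V := volume.real (KK v φ) with hVdef
  have hV : 0 < V := ENNReal.toReal_pos hK.vol0 hK.lt_top.ne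
  have hq0 : 0 < q := by linarith
  have h1 := hom_low hφ hp hpq hv
  have h2 := hom_one hφ hp hpq hv (h := fun x => (inner ℝ w x) ^ 2) (α := 2)
    (by fun_prop) (fun x => sq_nonneg _) (by rw [← hd]; linarith)
    (fun t ht _ x => by
      simp only [inner_smul_right]
      rw [Real.rpow_two, mul_pow]) (by
      refine Measure.integrableOn_of_bounded (M := (‖w‖ * R) ^ 2) hK.lt_top.ne
        (by fun_prop) ?_
      refine (ae_restrict_iff' hK.meas).2 (Filter.Eventually.of_forall fun x hx => ?_)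
      have hxR : ‖x‖ ≤ R := by simpa using hK.sub hx
      rw [norm_pow]
      refine pow_le_pow_left₀ (norm_nonneg _) ?_ 2
      exact (norm_inner_le_norm w x).trans (by gcongr))
  have h3 : ∀ j, ∫ x in KK v φ, (1 - Ph v φ x) ^ 2 * kap (φ j) (inner ℝ (v j) x) ≤
      2 * q ^ 2 / d ^ 2 * ∫ x in KK v φ, kap (φ j) (inner ℝ (v j) x) := by
    intro j
    obtain ⟨i1, -, -⟩ := hKPI _ _ (v j) (φ j) p q hK hsymm (hv0 j) (hφ j) hp hp2 hq2
    have h := hom_two hφ hp hpq hv (h := fun x => kap (φ j) (inner ℝ (v j) x)) (α := p - 2)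
      (kap_measurable hφ j) (fun x => kap_nonneg (hφ j) _) (by rw [← hd]; linarith)
      (fun t ht ht1 x => by
        simp only [inner_smul_right]
        exact kap_scale (hφ j) ht ht1) i1
    refine h.trans ?_
    have hnn : 0 ≤ ∫ x in KK v φ, kap (φ j) (inner ℝ (v j) x) :=
      integral_nonneg fun x => kap_nonneg (hφ j) _
    refine mul_le_mul_of_nonneg_right ?_ hnn
    rw [← hd]
    refine div_le_div_of_nonneg_left (by positivity) (by positivity) ?_
    nlinarith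
  have hcr := hCR2 ι v φ p q hφ hp hp2 hq2 hv hv0 w
  set A := ∫ x in KK v φ, (1 - Ph v φ x) ^ 2 with hA
  set B := ∫ x in KK v φ, (1 - Ph v φ x) * (inner ℝ w x) ^ 2 with hB
  set S := ∑ j, (∫ x in KK v φ, kap (φ j) (inner ℝ (v j) x)) * (inner ℝ (v j) w) ^ 2 with hS
  have hS0 : 0 ≤ S := Finset.sum_nonneg fun j _ =>
    mul_nonneg (integral_nonneg fun x => kap_nonneg (hφ j) _) (sq_nonneg _)
  -- lower bound of A
  have hAl : V / (3 * d ^ 2) ≤ A := by
    refine le_trans ?_ h1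
    rw [← hd]
    have : 1 / (3 * d ^ 2) ≤ 2 * p ^ 2 / ((d + p) * (d + 2 * p)) := by
      rw [div_le_div_iff₀ (by positivity) (by positivity)]
      nlinarith [mul_pos (by linarith : (0:ℝ) < p) (by linarith : (0:ℝ) < d),
        mul_nonneg (by linarith : (0:ℝ) ≤ p - 1) (by linarith : (0:ℝ) ≤ d - 1),
        mul_nonneg (mul_nonneg (by linarith : (0:ℝ) ≤ p - 1) (by linarith : (0:ℝ) ≤ p + 1))
          (sq_nonneg d), mul_nonneg (mul_nonneg (by linarith : (0:ℝ) ≤ d - 1)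
          (by linarith : (0:ℝ) ≤ d + 1)) (sq_nonneg p),
        mul_nonneg (mul_pos (by linarith : (0:ℝ) < p) (by linarith : (0:ℝ) < d)).le
          (by nlinarith : (0:ℝ) ≤ p * d - 1)]
    calc V / (3 * d ^ 2) = 1 / (3 * d ^ 2) * V := by ring
      _ ≤ _ := mul_le_mul_of_nonneg_right this hV.le
  -- upper bound of B
  have hBu : B ≤ q / d * (s ^ 2 * ‖w‖ ^ 2 * V) := by
    refine h2.trans ?_
    have hi0 : 0 ≤ ∫ x in KK v φ, (inner ℝ w x : ℝ) ^ 2 := integral_nonneg fun x => sq_nonneg _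
    rw [← hd]
    refine mul_le_mul ?_ (hcov w) hi0 (by positivity)
    refine div_le_div_of_nonneg_left (by linarith) (by linarith) (by linarith)
  -- upper bound of the sum
  have hSu : ∑ j, (q - 1) * (inner ℝ (v j) w) ^ 2 *
      ∫ x in KK v φ, (1 - Ph v φ x) ^ 2 * kap (φ j) (inner ℝ (v j) x) ≤
      (q - 1) * (2 * q ^ 2 / d ^ 2) * S := by
    rw [hS, Finset.mul_sum]
    refine Finset.sum_le_sum fun j _ => ?_
    calc _ ≤ (q - 1) * (inner ℝ (v j) w) ^ 2 *
          (2 * q ^ 2 / d ^ 2 * ∫ x in KK v φ, kap (φ j) (inner ℝ (v j) x)) :=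
          mul_le_mul_of_nonneg_left (h3 j) (mul_nonneg (by linarith) (sq_nonneg _))
      _ = _ := by ring
  have hB0 : 0 ≤ q / d * (s ^ 2 * ‖w‖ ^ 2 * V) := by positivity
  have hsum0 : 0 ≤ ∑ j, (q - 1) * (inner ℝ (v j) w) ^ 2 *
      ∫ x in KK v φ, (1 - Ph v φ x) ^ 2 * kap (φ j) (inner ℝ (v j) x) := by
    refine Finset.sum_nonneg fun j _ => mul_nonneg (mul_nonneg (by linarith) (sq_nonneg _)) ?_
    exact integral_nonneg fun x => mul_nonneg (sq_nonneg _) (kap_nonneg (hφ j) _)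
  have hmain : (‖w‖ ^ 2 * (V / (3 * d ^ 2))) ^ 2 ≤
      2 * (q / d * (s ^ 2 * ‖w‖ ^ 2 * V)) * ((q - 1) * (2 * q ^ 2 / d ^ 2) * S) := by
    calc _ ≤ (‖w‖ ^ 2 * A) ^ 2 := by gcongr
      _ ≤ _ := hcr
      _ ≤ _ := by
        refine mul_le_mul (by linarith) hSu hsum0 (by positivity)
  rcases eq_or_ne w 0 with rfl | hw
  · simp only [norm_zero]
    have : 0 ≤ 36 * q ^ 3 * (q - 1) * d * s ^ 2 * S := by
      have : 0 ≤ q - 1 := by linarith
      positivity
    simpa using this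
  have hw2 : 0 < ‖w‖ ^ 2 := by positivity
  have e1 : (‖w‖ ^ 2 * (V / (3 * d ^ 2))) ^ 2 = (‖w‖ ^ 2 * V / (9 * d ^ 4)) * (‖w‖ ^ 2 * V) := by
    field_simp
    ring
  have e2 : 2 * (q / d * (s ^ 2 * ‖w‖ ^ 2 * V)) * ((q - 1) * (2 * q ^ 2 / d ^ 2) * S) =
      (‖w‖ ^ 2 * V / (9 * d ^ 4)) * (36 * q ^ 3 * (q - 1) * d * s ^ 2 * S) := by
    field_simp
    ring
  rw [e1, e2] at hmain
  have h5 : ‖w‖ ^ 2 * V ≤ 36 * q ^ 3 * (q - 1) * d * s ^ 2 * S :=
    le_of_mul_le_mul_left hmain (by positivity)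
  exact h5

end Pool.Agent.H19.KL
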