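import Pool.Agent.H70.KL.DAV

/-!
# Project KL: module HES: the potential of the law of `x + noise`
-/

set_option autoImplicit false

open MeasureTheory Set
open scoped ContDiff

namespace Pool.Agent.H19.KL

open Pool.Agent.H84 Pool.Agent.H84.Sym Pool.Agent.H84.Sym.P2x Pool.Agent.H84.Sym.C29

private theorem hes_gc {E : Type*} [NormedAddCommGroup E] [InnerProductSpace ℝ E] (w : E) :
    GC (fun x : E => (inner ℝ x w : ℝ)) := by
  refine ⟨continuous_id.inner continuous_const, ?_⟩
  refine Gr.of_le (Gr.mul (Gr.nrm (H := E)) (Gr.of_bdd (H := E) (F := fun _ => ‖w‖) (A := ‖w‖)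
    fun _ => by simp)) fun x => ?_
  rw [abs_of_nonneg (mul_nonneg (norm_nonneg x) (norm_nonneg w))]
  exact abs_real_inner_le_norm _ _

/-- A symmetric bilinear form with `0 ≤ B(w,w) ≤ s |w|²` is bounded by `s`. -/
private theorem hes_polar {E : Type*} [NormedAddCommGroup E] [InnerProductSpace ℝ E] {s : ℝ}
    (hs : 0 ≤ s) (B : E →L[ℝ] E →L[ℝ] ℝ) (hsym : ∀ v w, B v w = B w v)
    (h0 : ∀ w, 0 ≤ B w w) (h1 : ∀ w, B w w ≤ s * ‖w‖ ^ 2) (v w : E) :
    |B v w| ≤ s * ‖v‖ * ‖w‖ := by
  rcases eq_or_ne v 0 with rfl | hv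
  · simp
  rcases eq_or_ne w 0 with rfl | hw
  · simp
  have ha : 0 < ‖v‖ := norm_pos_iff.2 hv
  have hb : 0 < ‖w‖ := norm_pos_iff.2 hw
  set a := ‖v‖ with hadef
  set b := ‖w‖ with hbdef
  have e1 : B (b • v + a • w) (b • v + a • w) =
      b ^ 2 * B v v + 2 * (a * b) * B v w + a ^ 2 * B w w := by
    simp only [map_add, map_smul, add_apply, smul_apply, smul_eq_mul]
    rw [hsym w v]
    ring
  have e2 : B (b • v - a • w) (b • v - a • w) =
      b ^ 2 * B v v - 2 * (a * b) * B v w + a ^ 2 * B w w := by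
    simp only [map_sub, map_smul, sub_apply, smul_apply, smul_eq_mul]
    rw [hsym w v]
    ring
  have n1 : ‖b • v + a • w‖ ≤ 2 * (a * b) := by
    refine (norm_add_le _ _).trans ?_
    rw [norm_smul, norm_smul, Real.norm_eq_abs, Real.norm_eq_abs, abs_of_pos ha, abs_of_pos hb]
    linarith
  have n2 : ‖b • v - a • w‖ ≤ 2 * (a * b) := by
    refine (norm_sub_le _ _).trans ?_
    rw [norm_smul, norm_smul, Real.norm_eq_abs, Real.norm_eq_abs, abs_of_pos ha, abs_of_pos hb]
    linarith
  have hab : 0 < a * b := mul_pos ha hb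
  have u1 : s * ‖b • v + a • w‖ ^ 2 ≤ s * (2 * (a * b)) ^ 2 :=
    mul_le_mul_of_nonneg_left (pow_le_pow_left₀ (norm_nonneg _) n1 2) hs
  have u2 : s * ‖b • v - a • w‖ ^ 2 ≤ s * (2 * (a * b)) ^ 2 :=
    mul_le_mul_of_nonneg_left (pow_le_pow_left₀ (norm_nonneg _) n2 2) hs
  have p1 := h0 (b • v + a • w)
  have p2 := h0 (b • v - a • w)
  have q1 := h1 (b • v + a • w)
  have q2 := h1 (b • v - a • w)
  have k1 : 4 * (a * b) * B v w ≤ 4 * (a * b) * (s * a * b) := by nlinarith
  have k2 : -(4 * (a * b) * B v w) ≤ 4 * (a * b) * (s * a * b) := by nlinarith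
  rw [abs_le]
  constructor
  · have k3 : 4 * (a * b) * (-B v w) ≤ 4 * (a * b) * (s * a * b) := by linarith
    have := le_of_mul_le_mul_left k3 (by positivity)
    linarith
  · exact le_of_mul_le_mul_left k1 (by positivity)

theorem hes_thm (E : Type) [NormedAddCommGroup E] [InnerProductSpace ℝ E]
    [FiniteDimensional ℝ E] [MeasurableSpace E] [BorelSpace E] (h1 : NCDStmt E)
    (h2 : VARStmt E) : HESStmt E := by
  intro U t C s hU hs
  have hadm : Adm U s := adm_of_pot hU hs
  have hone : GC (fun _ : E => (1:ℝ)) := GC.const 1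
  obtain ⟨hN, hN'⟩ := h1 U s hadm _ hone
  have hNpos : ∀ y, 0 < NI U s (fun _ => 1) y := NI_one_pos hadm
  have hgs : 0 < gs E s := gs_pos hs
  have hW2 : ContDiff ℝ 2 (WW U s) := by
    have e : WW U s = fun y => -Real.log (NI U s (fun _ => 1) y / gs E s) := rfl
    rw [e]
    exact ((hN.div_const _).log fun y => (div_pos (hNpos y) hgs).ne').neg
  -- first derivative
  have hW1 : ∀ y w : E, fderiv ℝ (WW U s) y w =
      s * (inner ℝ y w - av U s (fun x => inner ℝ x w) y) := by
    intro y w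
    have hNd : HasFDerivAt (NI U s (fun _ => 1)) (fderiv ℝ (NI U s (fun _ => 1)) y) y :=
      ((hN.differentiable (by norm_num)) y).hasFDerivAt
    have hd : HasFDerivAt (WW U s) (-((NI U s (fun _ => 1) y / gs E s)⁻¹ •
        ((gs E s)⁻¹ • fderiv ℝ (NI U s (fun _ => 1)) y))) y := by
      have e : WW U s = fun y => -Real.log (NI U s (fun _ => 1) y / gs E s) := rfl
      rw [e]
      have h3 : HasFDerivAt (fun y => NI U s (fun _ => 1) y / gs E s)
          ((gs E s)⁻¹ • fderiv ℝ (NI U s (fun _ => 1)) y) y := by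
        simpa [div_eq_mul_inv, mul_comm] using hNd.mul_const (gs E s)⁻¹
      exact (h3.log (div_pos (hNpos y) hgs).ne').neg
    rw [hd.fderiv]
    simp only [neg_apply, smul_apply, smul_eq_mul]
    rw [hN' y w]
    simp only [one_mul]
    unfold av
    have := (hNpos y).ne'
    have := hgs.ne'
    field_simp
    ring
  -- second derivative
  have hdiff2 : Differentiable ℝ (fderiv ℝ (WW U s)) :=
    (hW2.fderiv_right (m := 1) (by norm_num)).differentiable (by norm_num)
  have hB : ∀ y v w : E, fderiv ℝ (fderiv ℝ (WW U s)) y v w = s * (inner ℝ v w -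
      s * (av U s (fun x => inner ℝ x w * inner ℝ x v) y -
        av U s (fun x => inner ℝ x w) y * av U s (fun x => inner ℝ x v) y)) := by
    intro y v w
    have hd1 : HasFDerivAt (fun y => fderiv ℝ (WW U s) y w)
        ((fderiv ℝ (fderiv ℝ (WW U s)) y).flip w) y := by
      have h3 := (hdiff2 y).hasFDerivAt
      have h4 := h3.clm_apply (hasFDerivAt_const w y)
      refine h4.congr_fderiv ?_
      ext v
      simp
    obtain ⟨ha, ha'⟩ := dav_thm E h1 U s hadm _ (hes_gc w)
    have hd2 : HasFDerivAt (fun y => s * ((inner ℝ y w : ℝ) - av U s (fun x => inner ℝ x w) y))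
        (s • (innerSL ℝ w - fderiv ℝ (av U s (fun x => inner ℝ x w)) y)) y := by
      have h3 : HasFDerivAt (fun y : E => (inner ℝ y w : ℝ)) (innerSL ℝ w) y := by
        have h5 : HasFDerivAt (fun x : E => (inner ℝ w x : ℝ)) (innerSL ℝ w) y :=
          (innerSL ℝ w).hasFDerivAt
        have e : (fun x : E => (inner ℝ x w : ℝ)) = fun x => inner ℝ w x := by
          ext x
          exact real_inner_comm _ _
        rw [e]
        exact h5
      exact (h3.sub ((ha.differentiable (by norm_num)) y).hasFDerivAt).const_mul s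
    have e : (fun y => fderiv ℝ (WW U s) y w) =
        fun y => s * ((inner ℝ y w : ℝ) - av U s (fun x => inner ℝ x w) y) := by
      ext z
      exact hW1 z w
    rw [e] at hd1
    have h6 := congrArg (fun L => L v) (hd1.unique hd2)
    simp only [ContinuousLinearMap.flip_apply, smul_apply, smul_eq_mul, sub_apply,
      innerSL_apply_apply] at h6
    rw [h6, ha' y v, real_inner_comm v w]
  have hvar0 : ∀ y w : E, 0 ≤ av U s (fun x => (inner ℝ x w) ^ 2) y -
      av U s (fun x => inner ℝ x w) y ^ 2 := by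
    intro y w
    have h3 := av_nonneg hadm (F := fun x => ((inner ℝ x w : ℝ) -
      av U s (fun x => inner ℝ x w) y) ^ 2) (fun x => sq_nonneg _) y
    have hg := hes_gc w
    have e : (fun x => ((inner ℝ x w : ℝ) - av U s (fun x => inner ℝ x w) y) ^ 2) =
        fun x => ((inner ℝ x w : ℝ) ^ 2 + ((-2 * av U s (fun x => inner ℝ x w) y) *
          (inner ℝ x w : ℝ) + av U s (fun x => inner ℝ x w) y ^ 2)) := by
      ext x
      ring
    rw [e, av_add hadm hg.sq (((GC.const _).mul hg).add (GC.const _)),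
      av_add hadm ((GC.const _).mul hg) (GC.const _), av_const_mul hadm, av_const hadm] at h3
    linarith
  have hvar1 : ∀ y w : E, av U s (fun x => (inner ℝ x w) ^ 2) y -
      av U s (fun x => inner ℝ x w) y ^ 2 ≤ ‖w‖ ^ 2 / (t + s) := by
    intro y w
    have hp := np_pot (pot_add_quad hU hs.le y).1
    have h3 := h2 _ _ _ hp (prob_np hadm y) w
    rw [int_np hadm, int_np hadm] at h3
    exact h3
  have hBd : ∀ y w : E, fderiv ℝ (fderiv ℝ (WW U s)) y w w = s * ‖w‖ ^ 2 -
      s ^ 2 * (av U s (fun x => (inner ℝ x w) ^ 2) y - av U s (fun x => inner ℝ x w) y ^ 2) := by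
    intro y w
    rw [hB y w w, real_inner_self_eq_norm_sq]
    have e : (fun x : E => (inner ℝ x w : ℝ) * inner ℝ x w) = fun x => (inner ℝ x w) ^ 2 := by
      ext x
      ring
    rw [e]
    ring
  have hts : 0 < t + s := by linarith [hU.pos]
  have hsym : ∀ y v w : E, fderiv ℝ (fderiv ℝ (WW U s)) y v w =
      fderiv ℝ (fderiv ℝ (WW U s)) y w v := by
    intro y v w
    rw [hB y v w, hB y w v, real_inner_comm]
    have e : (fun x : E => (inner ℝ x w : ℝ) * inner ℝ x v) =
        fun x => inner ℝ x v * inner ℝ x w := by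
      ext x
      ring
    rw [e]
    ring
  have hlow : ∀ y w : E, t * s / (t + s) * ‖w‖ ^ 2 ≤ fderiv ℝ (fderiv ℝ (WW U s)) y w w := by
    intro y w
    rw [hBd y w]
    have h3 : s ^ 2 * (av U s (fun x => (inner ℝ x w) ^ 2) y -
        av U s (fun x => inner ℝ x w) y ^ 2) ≤ s ^ 2 * (‖w‖ ^ 2 / (t + s)) :=
      mul_le_mul_of_nonneg_left (hvar1 y w) (sq_nonneg _)
    have h4 : s * ‖w‖ ^ 2 - s ^ 2 * (‖w‖ ^ 2 / (t + s)) = t * s / (t + s) * ‖w‖ ^ 2 := by
      field_simp
      ring
    linarith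
  have hpos' : 0 < t * s / (t + s) := div_pos (mul_pos hU.pos hs) hts
  have hup : ∀ y w : E, fderiv ℝ (fderiv ℝ (WW U s)) y w w ≤ s * ‖w‖ ^ 2 := by
    intro y w
    rw [hBd y w]
    have := mul_nonneg (sq_nonneg s) (hvar0 y w)
    linarith
  have hnorm : ∀ y : E, ‖fderiv ℝ (fderiv ℝ (WW U s)) y‖ ≤ s := by
    intro y
    refine ContinuousLinearMap.opNorm_le_bound _ hs.le fun v => ?_
    refine ContinuousLinearMap.opNorm_le_bound _ (mul_nonneg hs.le (norm_nonneg v)) fun w => ?_
    rw [Real.norm_eq_abs]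
    exact hes_polar hs.le _ (hsym y) (fun w => le_trans (by positivity) (hlow y w)) (hup y) v w
  refine ⟨⟨‖fderiv ℝ (WW U s) 0‖ + s, hW2, hpos', hlow, ?_⟩, hW1, hBd⟩
  intro y
  have h3 := Convex.norm_image_sub_le_of_norm_fderiv_le (𝕜 := ℝ) (f := fderiv ℝ (WW U s))
    (s := univ) (C := s) (fun x _ => hdiff2 x) (fun x _ => hnorm x) convex_univ (mem_univ 0)
    (mem_univ y)
  rw [sub_zero] at h3
  have h4 : ‖fderiv ℝ (WW U s) y‖ ≤ ‖fderiv ℝ (WW U s) 0‖ + s * ‖y‖ := by
    calc ‖fderiv ℝ (WW U s) y‖ = ‖fderiv ℝ (WW U s) 0 +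
          (fderiv ℝ (WW U s) y - fderiv ℝ (WW U s) 0)‖ := by rw [add_sub_cancel]
      _ ≤ _ := (norm_add_le _ _).trans (by linarith)
  have h5 := norm_nonneg (fderiv ℝ (WW U s) 0)
  have h6 := norm_nonneg y
  nlinarith [mul_nonneg h5 h6]

end Pool.Agent.H19.KL
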