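import Pool.Agent.H19.KL.Stmts2

/-!
# Module PGC: closeness of the regularised function, all `q`
-/

set_option autoImplicit false

open MeasureTheory Set
open scoped ContDiff

namespace Pool.Agent.H19.KL

open Pool.Agent.H84 Pool.Agent.H84.Sym Pool.Agent.H84.Sym.P2x Pool.Agent.H84.Sym.C29
open Pool.Agent.H73.Lp

variable {p q ε R : ℝ} {φ : ℝ → ℝ}

private theorem pgc_psi_eq {g : ℝ → ℝ} (hg : Continuous g) (s : ℝ) :
    psi g s = s * (∫ u in (0:ℝ)..s, g u) - ∫ u in (0:ℝ)..s, u * g u := by
  unfold psi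
  rw [← intervalIntegral.integral_const_mul, ← intervalIntegral.integral_sub]
  · congr 1
    ext u
    ring
  · exact (continuous_const.mul hg).intervalIntegrable _ _
  · exact (continuous_id.mul hg).intervalIntegrable _ _

private theorem pgc_hasDerivAt_prim {g : ℝ → ℝ} (hg : Continuous g) (s : ℝ) :
    HasDerivAt (fun t => ∫ u in (0:ℝ)..t, g u) (g s) s :=
  intervalIntegral.integral_hasDerivAt_right (hg.intervalIntegrable _ _)
    (hg.stronglyMeasurableAtFilter _ _) hg.continuousAt

private theorem pgc_hasDerivAt_psi {g : ℝ → ℝ} (hg : Continuous g) (s : ℝ) :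
    HasDerivAt (psi g) (∫ u in (0:ℝ)..s, g u) s := by
  have h1 := pgc_hasDerivAt_prim hg s
  have h2 := pgc_hasDerivAt_prim (continuous_id.mul hg) s
  have h3 := ((hasDerivAt_id s).mul h1).sub h2
  have h4 : psi g = fun t => t * (∫ u in (0:ℝ)..t, g u) - ∫ u in (0:ℝ)..t, u * g u := by
    ext t
    exact pgc_psi_eq hg t
  rw [h4]
  refine h3.congr_deriv ?_
  simp only [id, Pi.mul_apply]
  ring

private theorem pgc_dd_cont (h : Orl p q φ) : ContinuousOn (deriv (deriv φ)) (Ioi 0) := by
  have h1 : ContDiffOn ℝ 1 (deriv φ) (Ioi 0) := by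
    have e2 : (2 : WithTop ℕ∞) = 1 + 1 := by norm_num
    have := h.c2
    rw [e2, contDiffOn_succ_iff_deriv_of_isOpen isOpen_Ioi] at this
    exact this.2.2
  have e1 : (1 : WithTop ℕ∞) = 0 + 1 := by norm_num
  rw [e1, contDiffOn_succ_iff_deriv_of_isOpen isOpen_Ioi] at h1
  exact contDiffOn_zero.1 h1.2.2

private theorem pgc_d_diff (h : Orl p q φ) {s : ℝ} (hs : 0 < s) :
    HasDerivAt (deriv φ) (deriv (deriv φ) s) s := by
  have e2 : (2 : WithTop ℕ∞) = 1 + 1 := by norm_num
  have h1 := h.c2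
  rw [e2, contDiffOn_succ_iff_deriv_of_isOpen isOpen_Ioi] at h1
  have h2 : DifferentiableOn ℝ (deriv φ) (Ioi 0) := h1.2.2.differentiableOn (by norm_num)
  exact ((h2 s hs).differentiableAt (Ioi_mem_nhds hs)).hasDerivAt

private theorem pgc_dd_pos (h : Orl p q φ) (hp : 1 < p) {s : ℝ} (hs : 0 < s) :
    0 < deriv (deriv φ) s := by
  have h1 := h.lower s hs
  have h2 : 0 < (p - 1) * deriv φ s := mul_pos (by linarith) (h.pos s hs)
  exact pos_of_mul_pos_right (h2.trans_le h1) hs.le

private theorem pgc_psi_even {g : ℝ → ℝ} (hge : ∀ s, g (-s) = g s) (s : ℝ) :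
    psi g (-s) = psi g s := by
  unfold psi
  have : ∫ u in (0:ℝ)..(-s), (-s - u) * g u = ∫ u in (-0:ℝ)..(-s), (-s - u) * g u := by simp
  rw [this, ← intervalIntegral.integral_comp_neg (fun u => (-s - u) * g u)]
  rw [intervalIntegral.integral_symm]
  rw [← intervalIntegral.integral_neg]
  congr 1
  ext u
  rw [hge]
  ring

theorem pgc_thm : PGCStmt := by
  intro p q φ ε R s h hp hpq hε hR hs
  have hg := gg_continuous h hε hR
  -- reduction to nonnegative arguments
  have key : ∀ s : ℝ, 0 ≤ s → s ≤ R → |psi (gg φ ε R) s - φ s| ≤ (q + 1) * R * deriv φ ε := by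
    intro s hs0 hsR
    have hdpos : 0 < deriv φ ε := h.pos ε hε
    have hdφ : ∀ x, HasDerivAt φ (deriv φ x) x := fun x =>
      ((h.c1.differentiable (by norm_num)) x).hasDerivAt
    have hder : ∀ x, HasDerivAt (fun t => psi (gg φ ε R) t - φ t)
        ((∫ u in (0:ℝ)..x, gg φ ε R u) - deriv φ x) x := fun x =>
      (pgc_hasDerivAt_psi hg x).sub (hdφ x)
    -- the derivative on `[0, ε]`
    have hsmall : ∀ x, 0 ≤ x → x ≤ ε → (∫ u in (0:ℝ)..x, gg φ ε R u) = x * deriv (deriv φ) ε := by
      intro x hx0 hx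
      have : ∫ u in (0:ℝ)..x, gg φ ε R u = ∫ u in (0:ℝ)..x, deriv (deriv φ) ε := by
        apply intervalIntegral.integral_congr
        intro u hu
        rw [uIcc_of_le hx0] at hu
        unfold gg
        rw [abs_of_nonneg hu.1, max_eq_right (hu.2.trans hx), min_eq_left hR.le]
      rw [this]
      simp
    have hD1 : ∀ x, 0 ≤ x → x ≤ ε →
        |(∫ u in (0:ℝ)..x, gg φ ε R u) - deriv φ x| ≤ (q + 1) * deriv φ ε := by
      intro x hx0 hx
      rw [hsmall x hx0 hx]
      have e1 : 0 ≤ x * deriv (deriv φ) ε := mul_nonneg hx0 (pgc_dd_pos h hp hε).le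
      have e2 : x * deriv (deriv φ) ε ≤ ε * deriv (deriv φ) ε :=
        mul_le_mul_of_nonneg_right hx (pgc_dd_pos h hp hε).le
      have e3 := h.upper ε hε
      have e4 : (q - 1) * deriv φ ε ≤ (q + 1) * deriv φ ε :=
        mul_le_mul_of_nonneg_right (by linarith) hdpos.le
      have e5 : deriv φ x ≤ deriv φ ε := h.deriv_mono hp hx0 hx
      have e6 : 0 ≤ deriv φ x := by
        have := h.deriv_mono hp (le_refl 0) hx0
        rwa [h.deriv_zero] at this
      have e7 : 1 * deriv φ ε ≤ (q + 1) * deriv φ ε :=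
        mul_le_mul_of_nonneg_right (by linarith) hdpos.le
      rw [abs_le]
      constructor <;> linarith
    have hD2 : ∀ x, ε ≤ x → x ≤ R →
        (∫ u in (0:ℝ)..x, gg φ ε R u) - deriv φ x = (∫ u in (0:ℝ)..ε, gg φ ε R u) - deriv φ ε := by
      intro x hx hxR
      have h1 : ∫ u in ε..x, gg φ ε R u = deriv φ x - deriv φ ε := by
        have h2 : ∫ u in ε..x, gg φ ε R u = ∫ u in ε..x, deriv (deriv φ) u := by
          apply intervalIntegral.integral_congr
          intro u hu
          rw [uIcc_of_le hx] at hu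
          have hu0 : 0 < u := hε.trans_le hu.1
          change gg φ ε R u = _
          unfold gg
          rw [abs_of_nonneg hu0.le, max_eq_left hu.1, min_eq_left (hu.2.trans hxR)]
        rw [h2]
        apply intervalIntegral.integral_eq_sub_of_hasDerivAt
        · intro u hu
          rw [uIcc_of_le hx] at hu
          exact pgc_d_diff h (hε.trans_le hu.1)
        · apply ContinuousOn.intervalIntegrable
          apply (pgc_dd_cont h).mono
          intro u hu
          rw [uIcc_of_le hx] at hu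
          exact hε.trans_le hu.1
      have h3 : (∫ u in (0:ℝ)..ε, gg φ ε R u) + ∫ u in ε..x, gg φ ε R u
          = ∫ u in (0:ℝ)..x, gg φ ε R u :=
        intervalIntegral.integral_add_adjacent_intervals (hg.intervalIntegrable _ _)
          (hg.intervalIntegrable _ _)
      linarith
    have hD : ∀ x ∈ Icc (0:ℝ) R,
        ‖(∫ u in (0:ℝ)..x, gg φ ε R u) - deriv φ x‖ ≤ (q + 1) * deriv φ ε := by
      intro x hx
      rw [Real.norm_eq_abs]
      rcases le_total x ε with hxe | hxe
      · exact hD1 x hx.1 hxe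
      · rw [hD2 x hxe hx.2]
        exact hD1 ε hε.le le_rfl
    have := Convex.norm_image_sub_le_of_norm_hasDerivWithin_le (s := Icc (0:ℝ) R)
      (f := fun t => psi (gg φ ε R) t - φ t)
      (f' := fun x => (∫ u in (0:ℝ)..x, gg φ ε R u) - deriv φ x) (C := (q + 1) * deriv φ ε)
      (fun x _ => (hder x).hasDerivWithinAt) hD (convex_Icc _ _)
      (left_mem_Icc.2 (hε.trans hR).le) (⟨hs0, hsR⟩ : s ∈ Icc (0:ℝ) R)
    simp only [psi_zero, h.zero, sub_zero, Real.norm_eq_abs] at this
    rw [abs_of_nonneg hs0] at this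
    calc |psi (gg φ ε R) s - φ s| ≤ (q + 1) * deriv φ ε * s := this
      _ ≤ (q + 1) * deriv φ ε * R :=
        mul_le_mul_of_nonneg_left hsR (mul_nonneg (by linarith) hdpos.le)
      _ = (q + 1) * R * deriv φ ε := by ring
  rcases le_total 0 s with h0 | h0
  · exact key s h0 (by rwa [abs_of_nonneg h0] at hs)
  · have h1 := key (-s) (by linarith) (by rwa [abs_of_nonpos h0] at hs)
    rw [pgc_psi_even (fun t => by unfold gg; rw [abs_neg]), h.even] at h1
    exact h1

end Pool.Agent.H19.KL
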